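import Pool.Agent.Helper98.QR.StmtsA

/-!
# QR rows A00, A04, A05: first return maps of permutations
-/

namespace QR
namespace H70

variable {S : Type}

lemma ret_ex [Finite S] (σ : Equiv.Perm S) (B : Set S) (x : S) (hx : x ∈ B) :
    ∃ k : ℕ, 1 ≤ k ∧ (σ ^ k) x ∈ B := by
  refine ⟨orderOf σ, orderOf_pos σ, ?_⟩
  rw [pow_orderOf_eq_one]
  exact hx

/-- cycles are generated by the single steps -/
lemma sc_rel (f : Equiv.Perm S) (R : S → S → Prop) (hr : ∀ x, R x x) (hs : ∀ x y, R x y → R y x)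
    (ht : ∀ x y z, R x y → R y z → R x z) (h : ∀ x, R x (f x)) {x y : S}
    (hxy : f.SameCycle x y) : R x y := by
  obtain ⟨i, rfl⟩ := hxy
  induction i using Int.induction_on with
  | zero => simpa using hr x
  | succ i ih =>
    have e : (f ^ ((i : ℤ) + 1)) x = f ((f ^ (i : ℤ)) x) := by
      rw [add_comm, zpow_add, zpow_one]; rfl
    rw [e]
    exact ht _ _ _ ih (h _)
  | pred i ih =>
    have e : f ((f ^ (-(i : ℤ) - 1)) x) = (f ^ (-(i : ℤ))) x := by
      have : f * f ^ (-(i : ℤ) - 1) = f ^ (-(i : ℤ)) := by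
        rw [← zpow_one_add]
        ring_nf
      rw [← this]; rfl
    have h2 := h ((f ^ (-(i : ℤ) - 1)) x)
    rw [e] at h2
    exact ht _ _ _ ih (hs _ _ h2)

lemma ret_out {σ ρ : Equiv.Perm S} {B : Set S} (h : IsRet σ B ρ) {x : S} (hx : x ∉ B) :
    ρ⁻¹ x = x := by
  have := h.1 x hx
  rw [Equiv.Perm.inv_eq_iff_eq]
  exact this.symm

lemma ret_in {σ ρ : Equiv.Perm S} {B : Set S} (h : IsRet σ B ρ) {x : S} (hx : x ∈ B) :
    ρ⁻¹ x ∈ B := by
  by_contra hn
  have e : ρ (ρ⁻¹ x) = x := ρ.apply_symm_apply x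
  have := h.1 _ hn
  rw [e] at this
  rw [← this] at hn
  exact hn hx

end H70

theorem st_A00 : ST_A00 := by
  intro S _ σ B
  classical
  let f : S → S := fun x => if h : x ∈ B then (σ ^ Nat.find (H70.ret_ex σ B x h)) x else x
  have f1 : ∀ x (h : x ∈ B), f x = (σ ^ Nat.find (H70.ret_ex σ B x h)) x := fun x h => dif_pos h
  have f2 : ∀ x, x ∉ B → f x = x := fun x h => dif_neg h
  have fB : ∀ x (h : x ∈ B), f x ∈ B := by
    intro x h
    rw [f1 x h]
    exact (Nat.find_spec (H70.ret_ex σ B x h)).2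
  have fm : ∀ x (h : x ∈ B) j, 1 ≤ j → j < Nat.find (H70.ret_ex σ B x h) → (σ ^ j) x ∉ B := by
    intro x h j h1 h2 h3
    exact Nat.find_min (H70.ret_ex σ B x h) h2 ⟨h1, h3⟩
  have key : ∀ x (hx : x ∈ B) y (hy : y ∈ B), f x = f y →
      Nat.find (H70.ret_ex σ B x hx) ≤ Nat.find (H70.ret_ex σ B y hy) → x = y := by
    intro x hx y hy hxy hle
    rw [f1 x hx, f1 y hy] at hxy
    have hk := (Nat.find_spec (H70.ret_ex σ B x hx)).1
    generalize hK : Nat.find (H70.ret_ex σ B x hx) = k at *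
    obtain ⟨l, hl⟩ := Nat.exists_eq_add_of_le hle
    have e : (σ ^ (k + l)) y = (σ ^ k) ((σ ^ l) y) := by rw [pow_add]; rfl
    rw [hl, e] at hxy
    have e2 : x = (σ ^ l) y := (σ ^ k).injective hxy
    rcases Nat.eq_zero_or_pos l with h0 | hpos
    · rw [h0] at e2
      simpa using e2
    · exfalso
      refine fm y hy l hpos (by omega) ?_
      rw [← e2]
      exact hx
  have finj : Function.Injective f := by
    intro x y hxy
    by_cases hx : x ∈ B <;> by_cases hy : y ∈ B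
    · rcases le_total (Nat.find (H70.ret_ex σ B x hx)) (Nat.find (H70.ret_ex σ B y hy)) with h | h
      · exact key x hx y hy hxy h
      · exact (key y hy x hx hxy.symm h).symm
    · exfalso
      have := fB x hx
      rw [hxy, f2 y hy] at this
      exact hy this
    · exfalso
      have := fB y hy
      rw [← hxy, f2 x hx] at this
      exact hx this
    · rw [f2 x hx, f2 y hy] at hxy
      exact hxy
  refine ⟨Equiv.ofBijective f (Finite.injective_iff_bijective.mp finj), ⟨?_, ?_⟩, ?_⟩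
  · intro x hx
    exact f2 x hx
  · intro x hx
    exact ⟨fB x hx, _, (Nat.find_spec (H70.ret_ex σ B x hx)).1, f1 x hx, fm x hx⟩
  · intro ρ hρ
    ext x
    change ρ x = f x
    by_cases hx : x ∈ B
    · obtain ⟨h1, k, hk, h2, h3⟩ := hρ.2 x hx
      have : Nat.find (H70.ret_ex σ B x hx) = k := by
        rcases lt_trichotomy (Nat.find (H70.ret_ex σ B x hx)) k with h | h | h
        · exact absurd (Nat.find_spec (H70.ret_ex σ B x hx)).2
            (h3 _ (Nat.find_spec (H70.ret_ex σ B x hx)).1 h)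
        · exact h
        · exact absurd (by rw [← h2]; exact h1) (fm x hx k hk h)
      rw [f1 x hx, this, h2]
    · rw [f2 x hx, hρ.1 x hx]

theorem st_A05 : ST_A05 := by
  intro S _ s ρ B h1 h2 h3
  classical
  refine ⟨h2, ?_⟩
  intro b hb
  refine ⟨h3 b hb, ?_⟩
  have hex : ∃ k : ℕ, 1 ≤ k ∧ (s ^ k) b = b := by
    refine ⟨orderOf s, orderOf_pos s, ?_⟩
    rw [pow_orderOf_eq_one]
    rfl
  obtain ⟨hk1, hk2⟩ := Nat.find_spec hex
  have hmin : ∀ j, 1 ≤ j → j < Nat.find hex → (s ^ j) b ∉ B := by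
    intro j hj1 hj2 hB
    have : b = (s ^ j) b := h1 b hb _ hB ⟨(j : ℤ), by simp⟩
    exact Nat.find_min hex hj2 ⟨hj1, this.symm⟩
  have hpow : ∀ j, j < Nat.find hex → ((ρ * s) ^ j) b = (s ^ j) b := by
    intro j
    induction j with
    | zero => intro _; simp
    | succ j ih =>
      intro hj
      have e1 : ((ρ * s) ^ (j + 1)) b = ρ (s (((ρ * s) ^ j) b)) := by
        rw [pow_succ']; rfl
      have e2 : (s ^ (j + 1)) b = s ((s ^ j) b) := by
        rw [pow_succ']; rfl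
      rw [e1, ih (by omega), ← e2, h2 _ (hmin (j + 1) (by omega) hj)]
  refine ⟨Nat.find hex, hk1, ?_, ?_⟩
  · obtain ⟨l, hl⟩ : ∃ l, Nat.find hex = l + 1 := ⟨Nat.find hex - 1, by omega⟩
    have e1 : ((ρ * s) ^ (l + 1)) b = ρ (s (((ρ * s) ^ l) b)) := by
      rw [pow_succ']; rfl
    have e2 : (s ^ (l + 1)) b = s ((s ^ l) b) := by
      rw [pow_succ']; rfl
    rw [hl, e1, hpow l (by omega), ← e2, ← hl, hk2]
  · intro j hj1 hj2
    rw [hpow j hj2]
    exact hmin j hj1 hj2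

namespace H70

variable {S : Type}

/-- the cut permutation in a block -/
lemma cut_block {σ ρ : Equiv.Perm S} {B : Set S} (h : IsRet σ B ρ) {b : S} (hb : b ∈ B) :
    ∃ k : ℕ, 1 ≤ k ∧ ρ b = (σ ^ k) b ∧ (∀ j, 1 ≤ j → j < k → (σ ^ j) b ∉ B) ∧
      (∀ j, j < k → ((ρ⁻¹ * σ) ^ j) b = (σ ^ j) b) ∧ ((ρ⁻¹ * σ) ^ k) b = b := by
  obtain ⟨h1, k, hk, h2, h3⟩ := h.2 b hb
  have hpow : ∀ j, j < k → ((ρ⁻¹ * σ) ^ j) b = (σ ^ j) b := by
    intro j
    induction j with
    | zero => intro _; simp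
    | succ j ih =>
      intro hj
      have e1 : ((ρ⁻¹ * σ) ^ (j + 1)) b = ρ⁻¹ (σ (((ρ⁻¹ * σ) ^ j) b)) := by
        rw [pow_succ']; rfl
      have e2 : (σ ^ (j + 1)) b = σ ((σ ^ j) b) := by
        rw [pow_succ']; rfl
      rw [e1, ih (by omega), ← e2, ret_out h (h3 (j + 1) (by omega) hj)]
  refine ⟨k, hk, h2, h3, hpow, ?_⟩
  obtain ⟨l, rfl⟩ : ∃ l, k = l + 1 := ⟨k - 1, by omega⟩
  have e1 : ((ρ⁻¹ * σ) ^ (l + 1)) b = ρ⁻¹ (σ (((ρ⁻¹ * σ) ^ l) b)) := by
    rw [pow_succ']; rfl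
  have e2 : (σ ^ (l + 1)) b = σ ((σ ^ l) b) := by
    rw [pow_succ']; rfl
  rw [e1, hpow l (by omega), ← e2, ← h2]
  simp

/-- the cycle of `b ∈ B` of the cut permutation is the block of `b` -/
lemma cut_cycle {σ ρ : Equiv.Perm S} {B : Set S} (h : IsRet σ B ρ) {b : S} (hb : b ∈ B) {y : S}
    (hy : (ρ⁻¹ * σ).SameCycle b y) :
    ∃ k : ℕ, 1 ≤ k ∧ ρ b = (σ ^ k) b ∧ (∀ j, 1 ≤ j → j < k → (σ ^ j) b ∉ B) ∧
      ∃ j, j < k ∧ y = (σ ^ j) b := by
  obtain ⟨k, hk, h2, h3, h4, h5⟩ := cut_block h hb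
  refine ⟨k, hk, h2, h3, ?_⟩
  obtain ⟨i, rfl⟩ := hy
  have hper : ∀ q : ℤ, ((ρ⁻¹ * σ) ^ ((k : ℤ) * q)) b = b := by
    intro q
    have hS : (ρ⁻¹ * σ) ^ ((k : ℤ) * q) = ((ρ⁻¹ * σ) ^ k) ^ q := by
      rw [zpow_mul, zpow_natCast]
    rw [hS]
    have : Function.IsFixedPt ((ρ⁻¹ * σ) ^ k) b := h5
    exact Equiv.Perm.zpow_apply_eq_self_of_apply_eq_self this q
  have hmod : (i % (k : ℤ)).toNat < k := by
    have := Int.emod_lt_of_pos i (show (0 : ℤ) < k by omega)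
    have := Int.emod_nonneg i (show (k : ℤ) ≠ 0 by omega)
    omega
  have hdiv : i = ((i % (k : ℤ)).toNat : ℤ) + (k : ℤ) * (i / (k : ℤ)) := by
    have h6 := Int.emod_add_mul_ediv i (k : ℤ)
    have := Int.emod_nonneg i (show (k : ℤ) ≠ 0 by omega)
    rw [Int.toNat_of_nonneg this]
    exact h6.symm
  refine ⟨(i % (k : ℤ)).toNat, hmod, ?_⟩
  rw [← h4 _ hmod]
  conv_lhs => rw [hdiv]
  rw [zpow_add]
  change ((ρ⁻¹ * σ) ^ (((i % (k : ℤ)).toNat : ℕ) : ℤ)) (((ρ⁻¹ * σ) ^ ((k : ℤ) * (i / (k : ℤ)))) b) = _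
  rw [hper, zpow_natCast]

lemma cut_one {σ ρ : Equiv.Perm S} {B : Set S} (h : IsRet σ B ρ) :
    ∀ x ∈ B, ∀ y ∈ B, (ρ⁻¹ * σ).SameCycle x y → x = y := by
  intro x hx y hy hxy
  obtain ⟨k, hk, h2, h3, j, hj, rfl⟩ := cut_cycle h hx hxy
  rcases Nat.eq_zero_or_pos j with h0 | hpos
  · rw [h0]; rfl
  · exact absurd hy (h3 j hpos hj)

lemma pow_sc (f : Equiv.Perm S) (n : ℕ) (x : S) : f.SameCycle x ((f ^ n) x) := ⟨(n : ℤ), by simp⟩

lemma ret_sc {σ ρ : Equiv.Perm S} {B : Set S} (h : IsRet σ B ρ) {x y : S}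
    (hxy : ρ.SameCycle x y) : σ.SameCycle x y := by
  refine sc_rel ρ (fun a b => σ.SameCycle a b) (fun x => Equiv.Perm.SameCycle.refl σ x)
    (fun x y h => h.symm) (fun x y z h h' => h.trans h') ?_ hxy
  intro x
  by_cases hx : x ∈ B
  · obtain ⟨_, k, _, h2, _⟩ := h.2 x hx
    rw [h2]
    exact pow_sc σ k x
  · rw [h.1 x hx]

lemma cut_sc {σ ρ : Equiv.Perm S} {B : Set S} (h : IsRet σ B ρ) {x y : S}
    (hxy : (ρ⁻¹ * σ).SameCycle x y) : σ.SameCycle x y := by
  refine sc_rel (ρ⁻¹ * σ) (fun a b => σ.SameCycle a b) (fun x => Equiv.Perm.SameCycle.refl σ x)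
    (fun x y h => h.symm) (fun x y z h h' => h.trans h') ?_ hxy
  intro x
  have h1 : σ.SameCycle x (σ x) := ⟨1, by simp⟩
  refine h1.trans ?_
  refine Equiv.Perm.SameCycle.symm ?_
  refine ret_sc h ⟨1, ?_⟩
  simp

lemma sc_iff {σ ρ : Equiv.Perm S} {B : Set S} (h : IsRet σ B ρ) (x y : S) :
    σ.SameCycle x y ↔ (ρ⁻¹ * σ).SameCycle x y ∨
      ∃ b ∈ B, ∃ b' ∈ B, (ρ⁻¹ * σ).SameCycle x b ∧ ρ.SameCycle b b' ∧
        (ρ⁻¹ * σ).SameCycle b' y := by
  constructor
  · intro hxy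
    refine sc_rel σ (fun x y => (ρ⁻¹ * σ).SameCycle x y ∨
      ∃ b ∈ B, ∃ b' ∈ B, (ρ⁻¹ * σ).SameCycle x b ∧ ρ.SameCycle b b' ∧
        (ρ⁻¹ * σ).SameCycle b' y) ?_ ?_ ?_ ?_ hxy
    · intro x
      exact Or.inl (Equiv.Perm.SameCycle.refl _ x)
    · rintro x y (h1 | ⟨b, hb, b', hb', h1, h2, h3⟩)
      · exact Or.inl h1.symm
      · exact Or.inr ⟨b', hb', b, hb, h3.symm, h2.symm, h1.symm⟩
    · rintro x y z (h1 | ⟨b, hb, b', hb', h1, h2, h3⟩) (g1 | ⟨c, hc, c', hc', g1, g2, g3⟩)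
      · exact Or.inl (h1.trans g1)
      · exact Or.inr ⟨c, hc, c', hc', h1.trans g1, g2, g3⟩
      · exact Or.inr ⟨b, hb, b', hb', h1, h2, h3.trans g1⟩
      · have e : b' = c := cut_one h b' hb' c hc (h3.trans g1)
        subst e
        exact Or.inr ⟨b, hb, c', hc', h1, h2.trans g2, g3⟩
    · intro x
      by_cases hx : σ x ∈ B
      · refine Or.inr ⟨ρ⁻¹ (σ x), ret_in h hx, σ x, hx, ⟨1, by simp⟩, ⟨1, by simp⟩,
          Equiv.Perm.SameCycle.refl _ _⟩
      · refine Or.inl ⟨1, ?_⟩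
        simp only [zpow_one, Equiv.Perm.coe_mul, Function.comp_apply]
        exact ret_out h hx
  · rintro (h1 | ⟨b, hb, b', hb', h1, h2, h3⟩)
    · exact cut_sc h h1
    · exact (cut_sc h h1).trans ((ret_sc h h2).trans (cut_sc h h3))

lemma ret_fix {σ ρ : Equiv.Perm S} {B : Set S} (h : IsRet σ B ρ) {x y : S} (hx : x ∉ B)
    (hxy : ρ.SameCycle x y) : y = x := by
  obtain ⟨i, rfl⟩ := hxy
  exact Equiv.Perm.zpow_apply_eq_self_of_apply_eq_self (h.1 x hx) i

lemma card_cut [Finite S] {σ ρ : Equiv.Perm S} {B : Set S} (h : IsRet σ B ρ) :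
    Nat.card (Cyc (ρ⁻¹ * σ)) = Nat.card B +
      Nat.card {c : Cyc σ // ∀ b ∈ B, c ≠ (Quotient.mk _ b : Cyc σ)} := by
  classical
  rw [← Nat.card_sum]
  symm
  let F : (B ⊕ {c : Cyc σ // ∀ b ∈ B, c ≠ (Quotient.mk _ b : Cyc σ)}) → Cyc (ρ⁻¹ * σ) :=
    fun z => match z with
      | Sum.inl b => Quotient.mk _ (b : S)
      | Sum.inr c => Quotient.mk _ c.1.out
  refine Nat.card_congr (Equiv.ofBijective F ⟨?_, ?_⟩)
  · rintro (⟨b, hb⟩ | ⟨c, hc⟩) (⟨b', hb'⟩ | ⟨c', hc'⟩) he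
    · have e : (ρ⁻¹ * σ).SameCycle b b' := Quotient.exact he
      have := cut_one h b hb b' hb' e
      subst this
      rfl
    · exfalso
      have e : (ρ⁻¹ * σ).SameCycle b c'.out := Quotient.exact he
      refine hc' b hb ?_
      rw [← Quotient.out_eq c']
      exact Quotient.sound (cut_sc h e).symm
    · exfalso
      have e : (ρ⁻¹ * σ).SameCycle c.out b' := Quotient.exact he
      refine hc b' hb' ?_
      rw [← Quotient.out_eq c]
      exact Quotient.sound (cut_sc h e)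
    · have e : (ρ⁻¹ * σ).SameCycle c.out c'.out := Quotient.exact he
      have : c = c' := by
        rw [← Quotient.out_eq c, ← Quotient.out_eq c']
        exact Quotient.sound (cut_sc h e)
      subst this
      rfl
  · intro q
    induction q using Quotient.inductionOn with
    | h x =>
      by_cases hB : ∃ b ∈ B, (ρ⁻¹ * σ).SameCycle b x
      · obtain ⟨b, hb, hbx⟩ := hB
        exact ⟨Sum.inl ⟨b, hb⟩, Quotient.sound hbx⟩
      · push Not at hB
        refine ⟨Sum.inr ⟨Quotient.mk _ x, ?_⟩, ?_⟩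
        · intro b hb he
          have e : σ.SameCycle b x := Equiv.Perm.SameCycle.symm (Quotient.exact he)
          rcases (sc_iff h b x).mp e with h1 | ⟨c, hc, c', hc', _, _, h3⟩
          · exact hB b hb h1
          · exact hB c' hc' h3
        · refine Quotient.sound ?_
          have e : σ.SameCycle ((Quotient.mk _ x : Cyc σ)).out x :=
            Quotient.exact (Quotient.out_eq (Quotient.mk _ x : Cyc σ))
          rcases (sc_iff h _ x).mp e with h1 | ⟨c, hc, c', hc', _, _, h3⟩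
          · exact h1
          · exact absurd h3 (hB c' hc')

lemma card_ret [Finite S] {σ ρ : Equiv.Perm S} {B : Set S} (h : IsRet σ B ρ) :
    Nat.card (Cyc ρ) = Nat.card (Bᶜ : Set S) +
      Nat.card {c : Cyc σ // ¬ ∀ b ∈ B, c ≠ (Quotient.mk _ b : Cyc σ)} := by
  classical
  rw [← Nat.card_sum]
  symm
  have hch : ∀ c : {c : Cyc σ // ¬ ∀ b ∈ B, c ≠ (Quotient.mk _ b : Cyc σ)},
      ∃ b ∈ B, c.1 = (Quotient.mk _ b : Cyc σ) := by
    intro c
    have := c.2
    push Not at this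
    exact this
  choose g hgB hg using hch
  let F : ((Bᶜ : Set S) ⊕ {c : Cyc σ // ¬ ∀ b ∈ B, c ≠ (Quotient.mk _ b : Cyc σ)}) → Cyc ρ :=
    fun z => match z with
      | Sum.inl b => Quotient.mk _ (b : S)
      | Sum.inr c => Quotient.mk _ (g c)
  refine Nat.card_congr (Equiv.ofBijective F ⟨?_, ?_⟩)
  · rintro (⟨b, hb⟩ | c) (⟨b', hb'⟩ | c') he
    · have e : ρ.SameCycle b b' := Quotient.exact he
      have := ret_fix h hb e
      subst this
      rfl
    · exfalso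
      have e : ρ.SameCycle b (g c') := Quotient.exact he
      have := ret_fix h hb e
      rw [← this] at hb
      exact hb (hgB c')
    · exfalso
      have e : ρ.SameCycle (g c) b' := Quotient.exact he
      have := ret_fix h hb' e.symm
      rw [← this] at hb'
      exact hb' (hgB c)
    · have e : ρ.SameCycle (g c) (g c') := Quotient.exact he
      have : c.1 = c'.1 := by
        rw [hg c, hg c']
        exact Quotient.sound (ret_sc h e)
      rw [Subtype.ext this]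
  · intro q
    induction q using Quotient.inductionOn with
    | h x =>
      by_cases hx : x ∈ B
      · have hc : ¬ ∀ b ∈ B, (Quotient.mk _ x : Cyc σ) ≠ (Quotient.mk _ b : Cyc σ) :=
          fun hn => hn x hx rfl
        refine ⟨Sum.inr ⟨Quotient.mk _ x, hc⟩, ?_⟩
        refine Quotient.sound ?_
        have e : σ.SameCycle x (g ⟨Quotient.mk _ x, hc⟩) := Quotient.exact (hg ⟨Quotient.mk _ x, hc⟩)
        have hgb := hgB ⟨Quotient.mk _ x, hc⟩
        change ρ.SameCycle (g ⟨Quotient.mk _ x, hc⟩) x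
        rcases (sc_iff h _ _).mp e with h1 | ⟨c, hc1, c', hc', h1, h2, h3⟩
        · have := cut_one h _ hx _ hgb h1
          rw [← this]
        · have e1 := cut_one h _ hx _ hc1 h1
          have e2 := cut_one h _ hc' _ hgb h3
          rw [← e2, e1]
          exact h2.symm
      · exact ⟨Sum.inl ⟨x, hx⟩, rfl⟩

end H70

theorem st_A04 : ST_A04 := by
  intro S _ σ ρ B h
  classical
  refine ⟨H70.cut_one h, ?_, H70.sc_iff h⟩
  rw [H70.card_cut h, H70.card_ret h]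
  have h1 : Nat.card (Cyc σ) = Nat.card {c : Cyc σ // ∀ b ∈ B, c ≠ (Quotient.mk _ b : Cyc σ)} +
      Nat.card {c : Cyc σ // ¬ ∀ b ∈ B, c ≠ (Quotient.mk _ b : Cyc σ)} := by
    rw [← Nat.card_sum]
    exact Nat.card_congr (Equiv.sumCompl _).symm
  have h2 : Nat.card S = Nat.card B + Nat.card (Bᶜ : Set S) := by
    rw [← Nat.card_sum]
    exact Nat.card_congr (Equiv.Set.sumCompl B).symm
  rw [h1, h2]
  ring

end QR
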