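import Pool.Agent.Helper98.QR.StmtsE

/-!
# QR row E08: locality of the glueing
-/

namespace QR
namespace H70

open SPR

lemma near_mono {V : Type} {c : V → V → ℕ} {x y : V} {s t : ℕ} (h : s ≤ t)
    (hs : Near c s x y) : Near c t x y := by
  induction t with
  | zero =>
    have : s = 0 := by omega
    subst this
    exact hs
  | succ t ih =>
    rcases Nat.lt_or_ge t s with h' | h'
    · have : s = t + 1 := by omega
      subst this
      exact hs
    · exact Or.inl (ih h')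

lemma near_step {V : Type} {c : V → V → ℕ} {x y z : V} {s : ℕ}
    (hs : Near c s x y) (h : c y z ≠ 0) : Near c (s + 1) x z := Or.inr ⟨y, hs, h⟩

lemma near_self {V : Type} (c : V → V → ℕ) (x : V) (s : ℕ) : Near c s x x :=
  near_mono (Nat.zero_le s) (show Near c 0 x x from rfl)

lemma ball_fin {V : Type} (c : V → V → ℕ) (hf : ∀ x, (Function.support (c x)).Finite) (x : V)
    (t : ℕ) : {y | Near c t x y}.Finite := by
  induction t with
  | zero =>
    refine (Set.finite_singleton x).subset ?_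
    intro y hy
    have : x = y := hy
    exact this.symm
  | succ t ih =>
    refine (ih.union (ih.biUnion (fun z _ => hf z))).subset ?_
    rintro y (hy | ⟨z, hz, hzy⟩)
    · exact Or.inl hy
    · refine Or.inr ?_
      simp only [Set.mem_iUnion]
      exact ⟨z, hz, hzy⟩

lemma fin_bound {X : Type} {S : Set X} (hS : S.Finite) (P : ℕ → X → Prop)
    (mono : ∀ m m' x, m ≤ m' → P m x → P m' x) (h : ∀ x ∈ S, ∃ m, P m x) :
    ∃ M, ∀ x ∈ S, P M x := by
  classical
  choose! g hg using h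
  refine ⟨hS.toFinset.sup g, fun x hx => ?_⟩
  exact mono _ _ _ (Finset.le_sup (f := g) (hS.mem_toFinset.mpr hx)) (hg x hx)

lemma ballIso_of {X X1 : Type} (r : ℕ) (C : X → X → ℕ) (x0 : X) (C1 : X1 → X1 → ℕ) (y0 : X1)
    (f : X → X1) (h0 : f x0 = y0)
    (hc : ∀ x y, Near C r x0 x → Near C r x0 y → C x y = C1 (f x) (f y))
    (hi : ∀ x y, Near C r x0 x → Near C r x0 y → f x = f y → x = y)
    (hs : ∀ x, Near C r x0 x → ∀ y1, C1 (f x) y1 ≠ 0 → ∃ y, C x y ≠ 0 ∧ f y = y1) :
    BallIso r C x0 C1 y0 := by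
  have hA : ∀ t, t ≤ r → ∀ x, Near C t x0 x → Near C1 t y0 (f x) := by
    intro t
    induction t with
    | zero =>
      intro _ x hx
      have e : x0 = x := hx
      subst e
      exact h0.symm
    | succ t ih =>
      intro ht x hx
      rcases hx with hx | ⟨z, hz, hzx⟩
      · exact Or.inl (ih (by omega) x hx)
      · refine Or.inr ⟨f z, ih (by omega) z hz, ?_⟩
        rw [← hc z x (near_mono (by omega) hz) (near_mono ht (near_step hz hzx))]
        exact hzx
  have hB : ∀ t, t ≤ r → ∀ y1, Near C1 t y0 y1 → ∃ x, Near C t x0 x ∧ f x = y1 := by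
    intro t
    induction t with
    | zero =>
      intro _ y1 hy
      have e : y0 = y1 := hy
      subst e
      exact ⟨x0, rfl, h0⟩
    | succ t ih =>
      intro ht y1 hy
      rcases hy with hy | ⟨z1, hz, hzy⟩
      · obtain ⟨x, hx, hfx⟩ := ih (by omega) y1 hy
        exact ⟨x, Or.inl hx, hfx⟩
      · obtain ⟨z, hz2, rfl⟩ := ih (by omega) z1 hz
        obtain ⟨y, hy2, hfy⟩ := hs z (near_mono (by omega) hz2) y1 hzy
        exact ⟨y, near_step hz2 hy2, hfy⟩
  let F : {v // Near C r x0 v} → {v // Near C1 r y0 v} := fun x => ⟨f x.1, hA r le_rfl x.1 x.2⟩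
  have hF : Function.Bijective F := by
    constructor
    · intro x y hxy
      have : f x.1 = f y.1 := congrArg Subtype.val hxy
      exact Subtype.ext (hi x.1 y.1 x.2 y.2 this)
    · intro y
      obtain ⟨x, hx, hfx⟩ := hB r le_rfl y.1 y.2
      exact ⟨⟨x, hx⟩, Subtype.ext hfx⟩
  refine ⟨Equiv.ofBijective F hF, ?_, ?_⟩
  · intro h
    exact h0
  · intro u v
    exact hc u.1 v.1 u.2 v.2

/-- functions from an isomorphism of balls -/
structure Fn {V V1 : Type} (ρ : ℕ) (G : BGraph V) (G1 : BGraph V1) (F : V → V1) (F' : V1 → V) :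
    Prop where
  f1 : ∀ s ≤ ρ, ∀ v, Near G.c s (G.b 0) v → Near G1.c s (G1.b 0) (F v)
  f2 : ∀ s ≤ ρ, ∀ v, Near G1.c s (G1.b 0) v → Near G.c s (G.b 0) (F' v)
  f3 : ∀ v, Near G.c ρ (G.b 0) v → F' (F v) = v
  f4 : ∀ v, Near G1.c ρ (G1.b 0) v → F (F' v) = v
  f5 : ∀ u v, Near G.c ρ (G.b 0) u → Near G.c ρ (G.b 0) v → G.c u v = G1.c (F u) (F v)
  f6 : ∀ u, Near G.c ρ (G.b 0) u → (u ∈ Set.range G.b ↔ F u ∈ Set.range G1.b)
  f7 : ∀ i : ℤ, |i| ≤ ρ → F (G.b i) = G1.b i

lemma fn_of_biso {V V1 : Type} {ρ : ℕ} {G : BGraph V} {G1 : BGraph V1} (h : BIso ρ G G1)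
    (hb : ∀ i : ℤ, |i| ≤ ρ → Near G.c ρ (G.b 0) (G.b i)) : ∃ F F', Fn ρ G G1 F F' := by
  classical
  obtain ⟨e, e1, e2, e3⟩ := h
  let F : V → V1 := fun v => if h : Near G.c ρ (G.b 0) v then (e ⟨v, h⟩ : V1) else G1.b 0
  let F' : V1 → V := fun v => if h : Near G1.c ρ (G1.b 0) v then (e.symm ⟨v, h⟩ : V) else G.b 0
  have hF : ∀ v (h : Near G.c ρ (G.b 0) v), F v = (e ⟨v, h⟩ : V1) := fun v h => dif_pos h
  have hF' : ∀ v (h : Near G1.c ρ (G1.b 0) v), F' v = (e.symm ⟨v, h⟩ : V) := fun v h => dif_pos h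
  have g3 : ∀ v, Near G.c ρ (G.b 0) v → F' (F v) = v := by
    intro v hv
    rw [hF v hv, hF' _ (e ⟨v, hv⟩).2]
    simp
  have g4 : ∀ v, Near G1.c ρ (G1.b 0) v → F (F' v) = v := by
    intro v hv
    rw [hF' v hv, hF _ (e.symm ⟨v, hv⟩).2]
    simp
  have g5 : ∀ u v, Near G.c ρ (G.b 0) u → Near G.c ρ (G.b 0) v → G.c u v = G1.c (F u) (F v) := by
    intro u v hu hv
    rw [hF u hu, hF v hv]
    exact e1 ⟨u, hu⟩ ⟨v, hv⟩
  have g7 : ∀ i : ℤ, |i| ≤ ρ → F (G.b i) = G1.b i := by
    intro i hi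
    rw [hF _ (hb i hi)]
    exact e3 i (hb i hi) hi
  have g0 : F (G.b 0) = G1.b 0 := g7 0 (by simp)
  refine ⟨F, F', ⟨?_, ?_, g3, g4, g5, ?_, g7⟩⟩
  · intro s
    induction s with
    | zero =>
      intro _ v hv
      have e : G.b 0 = v := hv
      subst e
      exact g0.symm
    | succ s ih =>
      intro hs v hv
      rcases hv with hv | ⟨z, hz, hzv⟩
      · exact Or.inl (ih (by omega) v hv)
      · refine Or.inr ⟨F z, ih (by omega) z hz, ?_⟩
        rw [← g5 z v (near_mono (by omega) hz) (near_mono hs (near_step hz hzv))]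
        exact hzv
  · intro s
    induction s with
    | zero =>
      intro _ v hv
      have e : G1.b 0 = v := hv
      subst e
      have := g3 (G.b 0) (near_self _ _ _)
      rw [g0] at this
      exact this.symm
    | succ s ih =>
      intro hs v hv
      rcases hv with hv | ⟨z, hz, hzv⟩
      · exact Or.inl (ih (by omega) v hv)
      · refine Or.inr ⟨F' z, ih (by omega) z hz, ?_⟩
        have hzρ : Near G1.c ρ (G1.b 0) z := near_mono (by omega) hz
        have hvρ : Near G1.c ρ (G1.b 0) v := near_mono hs (near_step hz hzv)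
        have hz2 : Near G.c ρ (G.b 0) (F' z) := by
          rw [hF' z hzρ]
          exact (e.symm ⟨z, hzρ⟩).2
        have hv2 : Near G.c ρ (G.b 0) (F' v) := by
          rw [hF' v hvρ]
          exact (e.symm ⟨v, hvρ⟩).2
        rw [g5 _ _ hz2 hv2, g4 z hzρ, g4 v hvρ]
        exact hzv
  · intro u hu
    rw [hF u hu]
    exact e2 ⟨u, hu⟩

/-- good vertices of the glueing -/
def Good {V W : Type} (G : BGraph V) (G' : BGraph W) (m : ℕ) : V ⊕ W → Prop
  | Sum.inl u => Near G.c m (G.b 0) u ∧ (u ∈ Set.range G.b → ∃ i : ℤ, |i| ≤ m ∧ u = G.b i)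
  | Sum.inr w => w ∉ Set.range G'.b ∧ Near G'.c m (G'.b 0) w

lemma good_mono {V W : Type} (G : BGraph V) (G' : BGraph W) (m m' : ℕ) (x : V ⊕ W) (h : m ≤ m')
    (hx : Good G G' m x) : Good G G' m' x := by
  rcases x with u | w
  · refine ⟨near_mono h hx.1, fun hu => ?_⟩
    obtain ⟨i, hi, hu'⟩ := hx.2 hu
    refine ⟨i, ?_, hu'⟩
    have : (m : ℤ) ≤ m' := by exact_mod_cast h
    omega
  · exact ⟨hx.1, near_mono h hx.2⟩

lemma good_bd {V W : Type} {G : BGraph V} {G' : BGraph W}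
    (hn : ∀ (r : ℕ) (i : ℤ), |i| ≤ r → Near G.c r (G.b 0) (G.b i)) (j : ℤ) :
    Good G G' j.natAbs (Sum.inl (G.b j)) := by
  have h : |j| ≤ (j.natAbs : ℤ) := by rw [Int.natCast_natAbs]
  exact ⟨hn _ j h, fun _ => ⟨j, h, rfl⟩⟩

/-- reachable vertices of the glueing are good -/
lemma good_reach (h07 : ST_E07) {V W : Type} {G : BGraph V} {G' : BGraph W} (hR : RegP G G')
    (hn : ∀ (r : ℕ) (i : ℤ), |i| ≤ r → Near G.c r (G.b 0) (G.b i))
    (hn' : ∀ (r : ℕ) (i : ℤ), |i| ≤ r → Near G'.c r (G'.b 0) (G'.b i)) (t : ℕ) :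
    ∀ x, Near (glueC G G') t (Sum.inl (G.b 0)) x → ∃ m, Good G G' m x := by
  obtain ⟨_, _, hsy, _, hle, hjunk, hrr, hbr, hzr, hzl, hbb⟩ := h07 V W G G' hR
  induction t with
  | zero =>
    intro x hx
    have e : Sum.inl (G.b 0) = x := hx
    subst e
    exact ⟨_, good_bd hn 0⟩
  | succ t ih =>
    rintro y (hy | ⟨x, hx, hxy⟩)
    · exact ih y hy
    · obtain ⟨m, hm⟩ := ih x hx
      rcases x with u | w
      · rcases y with v | w
        · by_cases hv : v ∈ Set.range G.b
          · obtain ⟨j, rfl⟩ := hv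
            exact ⟨_, good_bd hn j⟩
          · have e : glueC G G' (Sum.inl u) (Sum.inl v) = G.c u v := by
              rw [hsy, hzl v u hv, hR.symm1]
            rw [e] at hxy
            exact ⟨m + 1, near_step hm.1 hxy, fun h => absurd h hv⟩
        · by_cases hw : w ∈ Set.range G'.b
          · rw [hsy, hjunk w hw] at hxy
            exact absurd rfl hxy
          · by_cases hu : u ∈ Set.range G.b
            · obtain ⟨i, rfl⟩ := hu
              rw [hbr i w hw] at hxy
              have h : |1 - i| ≤ ((1 - i).natAbs : ℤ) := by rw [Int.natCast_natAbs]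
              exact ⟨(1 - i).natAbs + 1, hw, near_step (hn' _ _ h) hxy⟩
            · rw [hzr u w hu] at hxy
              exact absurd rfl hxy
      · rcases y with v | w'
        · by_cases hv : v ∈ Set.range G.b
          · obtain ⟨j, rfl⟩ := hv
            exact ⟨_, good_bd hn j⟩
          · rw [hsy, hzr v w hv] at hxy
            exact absurd rfl hxy
        · by_cases hw' : w' ∈ Set.range G'.b
          · rw [hsy, hjunk w' hw'] at hxy
            exact absurd rfl hxy
          · rw [hrr w w' hm.1 hw'] at hxy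
            exact ⟨m + 1, hw', near_step hm.2 hxy⟩

end H70

theorem st_E08 (h01 : ST_E01) (h07 : ST_E07) : ST_E08 := by
  intro V W G G' hR r
  classical
  have hnear : ∀ (V : Type) (G : BGraph V), (∀ x y, G.c x y = G.c y x) →
      (∀ i, G.c (G.b i) (G.b (i + 1)) ≠ 0) → ∀ (r : ℕ) (i : ℤ), |i| ≤ r →
      SPR.Near G.c r (G.b 0) (G.b i) := h01.2.2.2.2.1
  have hn := hnear V G hR.symm1 hR.adj1
  have hn' := hnear W G' hR.symm2 hR.adj2
  obtain ⟨_, _, hsy, hfin, hle, hjunk, hrr, hbr, hzr, hzl, hbb⟩ := h07 V W G G' hR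
  obtain ⟨M, hM⟩ := H70.fin_bound (H70.ball_fin (glueC G G') hfin (Sum.inl (G.b 0)) r)
    (H70.Good G G') (H70.good_mono G G') (H70.good_reach h07 hR hn hn' r)
  obtain ⟨M2, hM2⟩ := H70.fin_bound (H70.ball_fin G'.c hR.fin2 (G'.b 0) (M + 2))
    (fun m w => w ∈ Set.range G'.b → ∃ j : ℤ, |j| ≤ m ∧ w = G'.b (1 - j))
    (by
      intro m m' x hmm h hx
      obtain ⟨j, hj, hxj⟩ := h hx
      refine ⟨j, ?_, hxj⟩
      have : (m : ℤ) ≤ m' := by exact_mod_cast hmm
      omega)
    (by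
      intro w _
      by_cases hw : w ∈ Set.range G'.b
      · obtain ⟨j, rfl⟩ := hw
        refine ⟨(1 - j).natAbs, fun _ => ⟨1 - j, ?_, by ring_nf⟩⟩
        rw [Int.natCast_natAbs]
      · exact ⟨0, fun h => absurd h hw⟩)
  refine ⟨M + M2 + 3, ?_⟩
  intro V1 W1 G1 G1' hR1 hB hB'
  generalize hρ : M + M2 + 3 = ρ at hB hB'
  have hρZ : (ρ : ℤ) = M + M2 + 3 := by rw [← hρ]; push_cast; ring
  have hn1 := hnear V1 G1 hR1.symm1 hR1.adj1
  have hn1' := hnear W1 G1' hR1.symm2 hR1.adj2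
  obtain ⟨F, F', hF⟩ := H70.fn_of_biso hB (fun i hi => hn ρ i hi)
  obtain ⟨K, K', hK⟩ := H70.fn_of_biso hB' (fun i hi => hn' ρ i hi)
  obtain ⟨_, _, hsy1, _, hle1, hjunk1, hrr1, hbr1, hzr1, hzl1, hbb1⟩ := h07 V1 W1 G1 G1' hR1
  -- symmetric forms
  have hzl' : ∀ u v, v ∉ Set.range G.b → glueC G G' (Sum.inl u) (Sum.inl v) = G.c u v := by
    intro u v hv
    rw [hsy, hzl v u hv, hR.symm1]
  have hzl1' : ∀ u v, v ∉ Set.range G1.b →
      glueC G1 G1' (Sum.inl u) (Sum.inl v) = G1.c u v := by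
    intro u v hv
    rw [hsy1, hzl1 v u hv, hR1.symm1]
  -- near facts
  have hMρ : M ≤ ρ := by omega
  have nF : ∀ u, SPR.Near G.c M (G.b 0) u → SPR.Near G.c ρ (G.b 0) u :=
    fun u h => H70.near_mono hMρ h
  have nK : ∀ u, SPR.Near G'.c M (G'.b 0) u → SPR.Near G'.c ρ (G'.b 0) u :=
    fun u h => H70.near_mono hMρ h
  -- boundary pairs
  have hbd : ∀ i j : ℤ, |i| < ρ → |j| < ρ → glueC G G' (Sum.inl (G.b i)) (Sum.inl (G.b j)) =
      glueC G1 G1' (Sum.inl (G1.b i)) (Sum.inl (G1.b j)) := by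
    intro i j hi hj
    have hi1 : |i| ≤ ρ := by omega
    have hj1 : |j| ≤ ρ := by omega
    have hi2 : |1 - i| ≤ ρ := by
      rw [abs_le]; rw [abs_lt] at hi; omega
    have hj2 : |1 - j| ≤ ρ := by
      rw [abs_le]; rw [abs_lt] at hj; omega
    have hi3 : |i + 1| ≤ ρ := by
      rw [abs_le]; rw [abs_lt] at hi; omega
    have hj3 : |j + 1| ≤ ρ := by
      rw [abs_le]; rw [abs_lt] at hj; omega
    have a1 : G.c (G.b i) (G.b j) = G1.c (G1.b i) (G1.b j) := by
      rw [hF.f5 _ _ (hn ρ i hi1) (hn ρ j hj1), hF.f7 i hi1, hF.f7 j hj1]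
    have a2 : G'.c (G'.b (1 - i)) (G'.b (1 - j)) = G1'.c (G1'.b (1 - i)) (G1'.b (1 - j)) := by
      rw [hK.f5 _ _ (hn' ρ _ hi2) (hn' ρ _ hj2), hK.f7 _ hi2, hK.f7 _ hj2]
    have a3 : ∀ k l : ℤ, |k| ≤ ρ → |l| ≤ ρ → (G.b k = G.b l ↔ G1.b k = G1.b l) := by
      intro k l hk hl
      constructor
      · intro h
        rw [← hF.f7 k hk, ← hF.f7 l hl, h]
      · intro h
        rw [← hF.f3 _ (hn ρ k hk), ← hF.f3 _ (hn ρ l hl), hF.f7 k hk, hF.f7 l hl, h]
    rw [hbb i j, hbb1 i j, a1, a2]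
    simp only [a3 _ _ hi3 hj1, a3 _ _ hj3 hi1]
  have hbr' : ∀ (i : ℤ) w, |i| < (ρ : ℤ) → w ∉ Set.range G'.b → SPR.Near G'.c ρ (G'.b 0) w →
      glueC G G' (Sum.inl (G.b i)) (Sum.inr w) =
      glueC G1 G1' (Sum.inl (G1.b i)) (Sum.inr (K w)) := by
    intro i w hi hw hwn
    have hi2 : |1 - i| ≤ ρ := by
      rw [abs_le]; rw [abs_lt] at hi; omega
    have hw1 : K w ∉ Set.range G1'.b := fun h => hw ((hK.f6 w hwn).mpr h)
    rw [hbr i w hw, hbr1 i _ hw1, hK.f5 _ _ (hn' ρ _ hi2) hwn, hK.f7 _ hi2]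
  refine H70.ballIso_of r (glueC G G') (Sum.inl (G.b 0)) (glueC G1 G1') (Sum.inl (G1.b 0))
    (Sum.map F K) ?_ ?_ ?_ ?_
  · change Sum.inl (F (G.b 0)) = _
    rw [hF.f7 0 (by simp)]
  · intro x y hx hy
    have gx := hM x hx
    have gy := hM y hy
    rcases x with u | w <;> rcases y with v | w'
    · change _ = glueC G1 G1' (Sum.inl (F u)) (Sum.inl (F v))
      have hu := nF u gx.1
      have hv := nF v gy.1
      by_cases hub : u ∈ Set.range G.b
      · by_cases hvb : v ∈ Set.range G.b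
        · obtain ⟨i, hi, rfl⟩ := gx.2 hub
          obtain ⟨j, hj, rfl⟩ := gy.2 hvb
          rw [hF.f7 i (by omega), hF.f7 j (by omega)]
          exact hbd i j (by omega) (by omega)
        · rw [hzl' u v hvb, hzl1' _ _ (fun h => hvb ((hF.f6 v hv).mpr h)), hF.f5 u v hu hv]
      · rw [hzl u v hub, hzl1 _ _ (fun h => hub ((hF.f6 u hu).mpr h)), hF.f5 u v hu hv]
    · change _ = glueC G1 G1' (Sum.inl (F u)) (Sum.inr (K w'))
      by_cases hub : u ∈ Set.range G.b
      · obtain ⟨i, hi, rfl⟩ := gx.2 hub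
        rw [hF.f7 i (by omega)]
        exact hbr' i w' (by omega) gy.1 (nK _ gy.2)
      · rw [hzr u w' hub, hzr1 _ _ (fun h => hub ((hF.f6 u (nF u gx.1)).mpr h))]
    · change _ = glueC G1 G1' (Sum.inr (K w)) (Sum.inl (F v))
      rw [hsy, hsy1]
      by_cases hvb : v ∈ Set.range G.b
      · obtain ⟨i, hi, rfl⟩ := gy.2 hvb
        rw [hF.f7 i (by omega)]
        exact hbr' i w (by omega) gx.1 (nK _ gx.2)
      · rw [hzr v w hvb, hzr1 _ _ (fun h => hvb ((hF.f6 v (nF v gy.1)).mpr h))]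
    · change _ = glueC G1 G1' (Sum.inr (K w)) (Sum.inr (K w'))
      have hw := nK _ gx.2
      have hw' := nK _ gy.2
      rw [hrr w w' gx.1 gy.1, hrr1 _ _ (fun h => gx.1 ((hK.f6 w hw).mpr h))
        (fun h => gy.1 ((hK.f6 w' hw').mpr h)), hK.f5 w w' hw hw']
  · intro x y hx hy hxy
    have gx := hM x hx
    have gy := hM y hy
    rcases x with u | w <;> rcases y with v | w'
    · have e : F u = F v := Sum.inl_injective hxy
      rw [← hF.f3 u (nF u gx.1), ← hF.f3 v (nF v gy.1), e]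
    · exact absurd hxy Sum.inl_ne_inr
    · exact absurd hxy Sum.inr_ne_inl
    · have e : K w = K w' := Sum.inr_injective hxy
      rw [← hK.f3 w (nK w gx.2), ← hK.f3 w' (nK w' gy.2), e]
  · -- neighbours
    -- a boundary vertex of `G1'` near the origin
    have key : ∀ j : ℤ, SPR.Near G1'.c (M + 2) (G1'.b 0) (G1'.b (1 - j)) →
        ∃ j' : ℤ, |j'| < ρ ∧ G1.b j' = G1.b j ∧ G1'.b (1 - j') = G1'.b (1 - j) ∧
          F (G.b j') = G1.b j := by
      intro j hj
      have hjρ : SPR.Near G1'.c ρ (G1'.b 0) (G1'.b (1 - j)) := H70.near_mono (by omega) hj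
      have h1 := hK.f2 (M + 2) (by omega) _ hj
      have h2 : K' (G1'.b (1 - j)) ∈ Set.range G'.b := by
        rw [hK.f6 _ (H70.near_mono (by omega) h1), hK.f4 _ hjρ]
        exact ⟨_, rfl⟩
      obtain ⟨j', hj', h3⟩ := hM2 _ h1 h2
      have hj2 : |1 - j'| ≤ ρ := by
        rw [abs_le] at hj' ⊢; omega
      have h4 : G1'.b (1 - j') = G1'.b (1 - j) := by
        rw [← hK.f4 _ hjρ, h3, hK.f7 _ hj2]
      have h5 : G1.b j' = G1.b j := (hR1.glue j' j).mpr h4
      exact ⟨j', by omega, h5, h4, by rw [hF.f7 j' (by omega), h5]⟩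
    intro x hx y1 hy1
    have gx := hM x hx
    rcases x with u | w
    · have hu := nF u gx.1
      change glueC G1 G1' (Sum.inl (F u)) y1 ≠ 0 at hy1
      rcases y1 with v1 | w1
      · by_cases hc : G1.c (F u) v1 = 0
        · have hub : u ∈ Set.range G.b := by
            by_contra hub
            rw [hzl1 _ _ (fun h => hub ((hF.f6 u hu).mpr h))] at hy1
            exact hy1 hc
          have hvb : v1 ∈ Set.range G1.b := by
            by_contra hvb
            rw [hzl1' _ _ hvb] at hy1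
            exact hy1 hc
          obtain ⟨i, hi, rfl⟩ := gx.2 hub
          obtain ⟨j, rfl⟩ := hvb
          rw [hF.f7 i (by omega)] at hc hy1
          have h6 : G1'.c (G1'.b (1 - i)) (G1'.b (1 - j)) ≠ 0 := by
            intro h0
            rw [hbb1 i j, hc, h0] at hy1
            simp at hy1
          have hi2 : |1 - i| ≤ ((M + 1 : ℕ) : ℤ) := by
            rw [abs_le] at hi ⊢; push_cast; omega
          obtain ⟨j', hj', h7, h8, h9⟩ := key j (H70.near_step (hn1' (M + 1) _ hi2) h6)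
          refine ⟨Sum.inl (G.b j'), ?_, ?_⟩
          · rw [hbd i j' (by omega) hj', h7]
            exact hy1
          · change Sum.inl (F (G.b j')) = _
            rw [h9]
        · have h1 : SPR.Near G1.c (M + 1) (G1.b 0) v1 :=
            H70.near_step (hF.f1 M hMρ u gx.1) hc
          have h2 : SPR.Near G1.c ρ (G1.b 0) v1 := H70.near_mono (by omega) h1
          have h3 := hF.f2 ρ le_rfl _ h2
          refine ⟨Sum.inl (F' v1), ?_, ?_⟩
          · have h4 := hle u (F' v1)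
            have h5 : G.c u (F' v1) ≠ 0 := by
              rw [hF.f5 _ _ hu h3, hF.f4 _ h2]
              exact hc
            omega
          · change Sum.inl (F (F' v1)) = _
            rw [hF.f4 _ h2]
      · have hwb : w1 ∉ Set.range G1'.b := by
          intro h
          rw [hsy1, hjunk1 w1 h] at hy1
          exact hy1 rfl
        have hub : u ∈ Set.range G.b := by
          by_contra hub
          rw [hzr1 _ _ (fun h => hub ((hF.f6 u hu).mpr h))] at hy1
          exact hy1 rfl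
        obtain ⟨i, hi, rfl⟩ := gx.2 hub
        rw [hF.f7 i (by omega)] at hy1
        have hy2 := hy1
        rw [hbr1 i w1 hwb] at hy2
        have hi2 : |1 - i| ≤ ((M + 1 : ℕ) : ℤ) := by
          rw [abs_le] at hi ⊢; push_cast; omega
        have h1 : SPR.Near G1'.c (M + 2) (G1'.b 0) w1 :=
          H70.near_step (hn1' (M + 1) _ hi2) hy2
        have h2 : SPR.Near G1'.c ρ (G1'.b 0) w1 := H70.near_mono (by omega) h1
        have h3 := hK.f2 ρ le_rfl _ h2
        have h4 : K' w1 ∉ Set.range G'.b := by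
          intro h
          rw [hK.f6 _ h3, hK.f4 _ h2] at h
          exact hwb h
        refine ⟨Sum.inr (K' w1), ?_, ?_⟩
        · rw [hbr' i _ (by omega) h4 h3, hK.f4 _ h2]
          exact hy1
        · change Sum.inr (K (K' w1)) = _
          rw [hK.f4 _ h2]
    · have hw := nK w gx.2
      have hwb1 : K w ∉ Set.range G1'.b := fun h => gx.1 ((hK.f6 w hw).mpr h)
      change glueC G1 G1' (Sum.inr (K w)) y1 ≠ 0 at hy1
      have hKw := hK.f1 M hMρ w gx.2
      rcases y1 with v1 | w1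
      · have hy2 := hy1
        rw [hsy1] at hy2
        have hvb : v1 ∈ Set.range G1.b := by
          by_contra hvb
          rw [hzr1 _ _ hvb] at hy2
          exact hy2 rfl
        obtain ⟨j, rfl⟩ := hvb
        have hy3 := hy2
        rw [hbr1 j _ hwb1, hR1.symm2] at hy3
        obtain ⟨j', hj', h7, h8, h9⟩ := key j
          (H70.near_mono (by omega) (H70.near_step hKw hy3))
        refine ⟨Sum.inl (G.b j'), ?_, ?_⟩
        · rw [hsy, hbr' j' w hj' gx.1 hw, h7]
          exact hy2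
        · change Sum.inl (F (G.b j')) = _
          rw [h9]
      · have hwb : w1 ∉ Set.range G1'.b := by
          intro h
          rw [hsy1, hjunk1 w1 h] at hy1
          exact hy1 rfl
        rw [hrr1 _ _ hwb1 hwb] at hy1
        have h2 : SPR.Near G1'.c ρ (G1'.b 0) w1 :=
          H70.near_mono (by omega) (H70.near_step hKw hy1)
        have h3 := hK.f2 ρ le_rfl _ h2
        have h4 : K' w1 ∉ Set.range G'.b := by
          intro h
          rw [hK.f6 _ h3, hK.f4 _ h2] at h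
          exact hwb h
        refine ⟨Sum.inr (K' w1), ?_, ?_⟩
        · rw [hrr _ _ gx.1 h4, hK.f5 _ _ hw h3, hK.f4 _ h2]
          exact hy1
        · change Sum.inr (K (K' w1)) = _
          rw [hK.f4 _ h2]

end QR
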