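import Pool.Agent.Helper98.QR.StmtsE

/-!
# QR row E10: disc model of the glueing of two finite quadrangulations
-/

namespace QR
namespace H70E

open SPR Equiv

lemma zpow_succ_app {A : Type} (f : Perm A) (k : ℤ) (x : A) : (f ^ (k + 1)) x = f ((f ^ k) x) := by
  rw [add_comm, zpow_add, zpow_one]; rfl

lemma card_cycle {A B : Type} (f : Perm A) (g : Perm B) (j : A → B) (d : A)
    (h : ∀ a, f.SameCycle d a → g (j a) = j (f a))
    (hi : ∀ a a', f.SameCycle d a → f.SameCycle d a' → j a = j a' → a = a') :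
    Nat.card {b // g.SameCycle (j d) b} = Nat.card {a // f.SameCycle d a} := by
  have hz : ∀ k : ℤ, (g ^ k) (j d) = j ((f ^ k) d) := by
    intro k
    induction k using Int.induction_on with
    | zero => simp
    | succ k ih =>
      rw [zpow_succ_app, ih, h _ ⟨(k : ℤ), rfl⟩, ← zpow_succ_app]
    | pred k ih =>
      have e1 : (g ^ (-(k : ℤ))) (j d) = g ((g ^ (-(k : ℤ) - 1)) (j d)) := by
        rw [← zpow_succ_app]; ring_nf
      have e2 : (f ^ (-(k : ℤ))) d = f ((f ^ (-(k : ℤ) - 1)) d) := by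
        rw [← zpow_succ_app]; ring_nf
      rw [e1, e2, ← h _ ⟨-(k : ℤ) - 1, rfl⟩] at ih
      exact g.injective ih
  symm
  let F : {a // f.SameCycle d a} → {b // g.SameCycle (j d) b} := fun a =>
    ⟨j a.1, by
      obtain ⟨k, hk⟩ := a.2
      exact ⟨k, by rw [hz, hk]⟩⟩
  refine Nat.card_congr (Equiv.ofBijective F ⟨?_, ?_⟩)
  · intro a a' haa
    exact Subtype.ext (hi _ _ a.2 a'.2 (congrArg Subtype.val haa))
  · rintro ⟨b, k, hk⟩
    refine ⟨⟨(f ^ k) d, ⟨k, rfl⟩⟩, ?_⟩
    apply Subtype.ext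
    change j ((f ^ k) d) = b
    rw [← hz, hk]

lemma tail_face {D : Type} (m : RMap D) (d : D) : m.tail (m.face d) = m.tail (m.opp d) := by
  refine Quotient.sound ?_
  refine Perm.SameCycle.symm ⟨1, ?_⟩
  rw [zpow_one]
  rfl

/-- the opposite of an outer dart is not outer -/
lemma opp_inner {D : Type} [Finite D] (m : RMap D) (o : D) (p : ℕ) (hp : 2 ≤ p)
    (hf : m.fdeg o = 2 * p) (hs : m.Simple o) (e : D) (h1 : m.face.SameCycle o e) :
    ¬ m.face.SameCycle o (m.opp e) := by
  intro h2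
  have s1 : m.face.SameCycle e (m.face e) := ⟨1, by rw [zpow_one]⟩
  have s2 : m.face.SameCycle (m.opp e) (m.face (m.opp e)) := ⟨1, by rw [zpow_one]⟩
  have e1 : m.face e = m.opp e := hs _ _ (h1.trans s1) h2 (tail_face m e)
  have e2 : m.face (m.opp e) = e := by
    refine hs _ _ (h2.trans s2) h1 ?_
    rw [tail_face, m.opp_opp]
  have hz : ∀ k : ℤ, (m.face ^ k) e = e ∨ (m.face ^ k) e = m.opp e := by
    intro k
    induction k using Int.induction_on with
    | zero => left; simp
    | succ k ih =>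
      rw [zpow_succ_app]
      rcases ih with ih | ih
      · right; rw [ih, e1]
      · left; rw [ih, e2]
    | pred k ih =>
      have e3 : (m.face ^ (-(k : ℤ))) e = m.face ((m.face ^ (-(k : ℤ) - 1)) e) := by
        rw [← zpow_succ_app]; ring_nf
      rw [e3] at ih
      rcases ih with ih | ih
      · right
        apply m.face.injective
        rw [ih, e2]
      · left
        apply m.face.injective
        rw [ih, e1]
  have hle : Nat.card {d' : D // m.face.SameCycle o d'} ≤ Nat.card Bool := by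
    let F : {d' : D // m.face.SameCycle o d'} → Bool := fun d => by
      classical
      exact decide (d.1 = e)
    refine Nat.card_le_card_of_injective F ?_
    intro a b hab
    have hh : ∀ c : {d' : D // m.face.SameCycle o d'}, c.1 = e ∨ c.1 = m.opp e := by
      intro c
      obtain ⟨k, hk⟩ := h1.symm.trans c.2
      rw [← hk]
      exact hz k
    have hab' : (a.1 = e) ↔ (b.1 = e) := by
      have := hab
      simp only [F, decide_eq_decide] at this
      exact this
    apply Subtype.ext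
    rcases hh a with ha | ha
    · rw [ha, hab'.mp ha]
    · rcases hh b with hb | hb
      · rw [hb, hab'.mpr hb]
      · rw [ha, hb]
  have : m.fdeg o ≤ 2 := by
    unfold RMap.fdeg
    simpa using hle
  omega

/-- relabelling a disc model -/
lemma dm_equiv {V W : Type} {K : ℝ} {c : V → V → ℕ} {c' : W → W → ℕ} (e : V ≃ W)
    (h : ∀ u v, c u v = c' (e u) (e v)) (M : DiscModel K c) : Nonempty (DiscModel K c') := by
  classical
  have hdeg : ∀ v, deg c' (e v) = deg c v := by
    intro v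
    unfold deg
    rw [← finsum_comp_equiv e]
    exact finsum_congr (fun u => (h v u).symm)
  have hown : ∀ v d, (e (M.own d) = e v) ↔ (M.own d = v) := fun v d => e.injective.eq_iff
  refine ⟨{
    N := M.N
    ctr := M.ctr
    rad := M.rad
    own := fun d => e (M.own d)
    root := fun w => M.root (e.symm w)
    par := M.par
    depth := M.depth
    e := M.e
    rad_pos := M.rad_pos
    disj := M.disj
    own_root := fun w => by rw [M.own_root, Equiv.apply_symm_apply]
    par_root := fun w => M.par_root _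
    depth_eq_zero := fun d => by rw [M.depth_eq_zero, Equiv.symm_apply_apply]
    own_par := fun d => by rw [M.own_par]
    depth_par := M.depth_par
    par_touch := M.par_touch
    e_symm := M.e_symm
    e_touch := M.e_touch
    e_sum := ?_
    size := ?_
    balance := ?_ }⟩
  · intro u v
    obtain ⟨u, rfl⟩ := e.surjective u
    obtain ⟨v, rfl⟩ := e.surjective v
    rw [← h, ← M.e_sum]
    rw [Finset.filter_congr (fun d _ => hown u d)]
    refine Finset.sum_congr rfl (fun d _ => ?_)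
    rw [Finset.filter_congr (fun d _ => hown v d)]
  · intro v
    obtain ⟨v, rfl⟩ := e.surjective v
    rw [Finset.filter_congr (fun d _ => hown v d), hdeg]
    exact M.size v
  · intro d
    rw [hdeg]
    exact M.balance d

/-- disc model of isolated vertices -/
lemma dm_zero (J : Type) [Finite J] {K : ℝ} (hK : 1 ≤ K) :
    Nonempty (DiscModel K (fun _ _ : J => 0)) := by
  classical
  let e : J ≃ Fin (Nat.card J) := Finite.equivFin J
  have hdeg : ∀ v : J, deg (fun _ _ : J => 0) v = 0 := by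
    intro v
    unfold deg
    simp
  refine ⟨{
    N := Nat.card J
    ctr := fun d => (3 * ((d : ℕ) : ℂ))
    rad := fun _ => 1
    own := fun d => e.symm d
    root := fun w => e w
    par := fun d => d
    depth := fun _ => 0
    e := fun _ _ => 0
    rad_pos := fun _ => one_pos
    disj := ?_
    own_root := fun w => by simp
    par_root := fun w => rfl
    depth_eq_zero := fun d => by simp
    own_par := fun d => rfl
    depth_par := fun d h => absurd rfl h
    par_touch := fun d h => absurd rfl h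
    e_symm := fun _ _ => rfl
    e_touch := fun _ _ h => absurd rfl h
    e_sum := fun u v => by simp
    size := ?_
    balance := ?_ }⟩
  · intro d d' hdd
    have hne : (d : ℕ) ≠ (d' : ℕ) := fun h => hdd (Fin.ext h)
    have e1 : dist (3 * ((d : ℕ) : ℂ)) (3 * ((d' : ℕ) : ℂ)) = 3 * |((d : ℕ) : ℝ) - ((d' : ℕ) : ℝ)| := by
      rw [dist_eq_norm, ← mul_sub, norm_mul]
      have e2 : ((d : ℕ) : ℂ) - ((d' : ℕ) : ℂ) = ((((d : ℕ) : ℝ) - ((d' : ℕ) : ℝ) : ℝ) : ℂ) := by
        push_cast; ring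
      rw [e2, Complex.norm_real, Real.norm_eq_abs]
      norm_num
    rw [e1]
    have e3 : (1 : ℝ) ≤ |((d : ℕ) : ℝ) - ((d' : ℕ) : ℝ)| := by
      have e4 : (1 : ℤ) ≤ |((d : ℕ) : ℤ) - ((d' : ℕ) : ℤ)| := by
        have hne' : ((d : ℕ) : ℤ) ≠ ((d' : ℕ) : ℤ) := by exact_mod_cast hne
        exact Int.one_le_abs (sub_ne_zero.mpr hne')
      exact_mod_cast e4
    linarith
  · intro v
    have e1 : (Finset.univ.filter (fun d => e.symm d = v)) = {e v} := by
      ext d
      simp only [Finset.mem_filter, Finset.mem_univ, true_and, Finset.mem_singleton]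
      exact e.symm_apply_eq
    rw [e1, hdeg]
    simp only [Finset.card_singleton]
    push_cast
    linarith
  · intro d
    rw [hdeg]
    simp

/-- adding isolated vertices -/
lemma dm_junk (h11 : ST_E11) {V X : Type} [Finite V] [Finite X] {K : ℝ} (hK : 1 ≤ K)
    (c : V → V → ℕ) (c' : X → X → ℕ) (f : V → X) (hf : Function.Injective f)
    (hc : ∀ u v, c' (f u) (f v) = c u v)
    (hz : ∀ x y, (x ∉ Set.range f ∨ y ∉ Set.range f) → c' x y = 0)
    (M : Nonempty (DiscModel K c)) : Nonempty (DiscModel K c') := by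
  classical
  let J : Type := {x : X // x ∉ Set.range f}
  let VV : Bool → Type := fun b => match b with
    | true => V
    | false => J
  let cc : ∀ b, VV b → VV b → ℕ := fun b => match b with
    | true => c
    | false => fun _ _ => 0
  have : ∀ b, Finite (VV b) := fun b => match b with
    | true => inferInstanceAs (Finite V)
    | false => inferInstanceAs (Finite J)
  have h := h11 K Bool VV cc hK (fun b => match b with
    | true => M
    | false => dm_zero J hK)
  obtain ⟨N⟩ := h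
  let g : (Σ b, VV b) → X := fun z => match z with
    | ⟨true, v⟩ => f v
    | ⟨false, j⟩ => j.1
  have hg : Function.Bijective g := by
    constructor
    · rintro ⟨b, v⟩ ⟨b', v'⟩ hbb
      cases b <;> cases b'
      · have : v = v' := Subtype.ext hbb
        rw [this]
      · exact absurd ⟨v', hbb.symm⟩ v.2
      · exact absurd ⟨v, hbb⟩ v'.2
      · have : v = v' := hf hbb
        rw [this]
    · intro x
      by_cases hx : x ∈ Set.range f
      · obtain ⟨v, rfl⟩ := hx
        exact ⟨⟨true, v⟩, rfl⟩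
      · exact ⟨⟨false, ⟨x, hx⟩⟩, rfl⟩
  refine dm_equiv (Equiv.ofBijective g hg) ?_ N
  rintro ⟨b, v⟩ ⟨b', v'⟩
  cases b <;> cases b'
  · change sigC cc ⟨false, v⟩ ⟨false, v'⟩ = c' v.1 v'.1
    rw [hz v.1 v'.1 (Or.inl v.2)]
    simp [sigC, cc]
  · change sigC cc ⟨false, v⟩ ⟨true, v'⟩ = c' v.1 (f v')
    rw [hz v.1 _ (Or.inl v.2)]
    simp [sigC]
  · change sigC cc ⟨true, v⟩ ⟨false, v'⟩ = c' (f v) v'.1
    rw [hz _ v'.1 (Or.inr v'.2)]
    simp [sigC]
  · change sigC cc ⟨true, v⟩ ⟨true, v'⟩ = c' (f v) (f v')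
    rw [hc]
    simp [sigC, cc]

lemma card_split {A : Type} [Finite A] (P Q : A → Prop) :
    Nat.card {a // P a} = Nat.card {a // Q a ∧ P a} + Nat.card {a // P a ∧ ¬ Q a} := by
  classical
  rw [← Nat.card_sum]
  refine Nat.card_congr ?_
  refine (Equiv.sumCompl (fun x : {a // P a} => Q x.1)).symm.trans (Equiv.sumCongr ?_ ?_)
  · exact (Equiv.subtypeSubtypeEquivSubtypeInter P Q).trans
      (Equiv.subtypeEquivRight (fun a => and_comm))
  · exact Equiv.subtypeSubtypeEquivSubtypeInter P (fun a => ¬ Q a)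

open Classical in
lemma bd_count {D : Type} [Finite D] (m : RMap D) (o : D) (p : ℕ) (hp : 2 ≤ p)
    (hs : m.Simple o)
    (hmod : ∀ i j : ℤ, (m.bg o).b i = (m.bg o).b j ↔ (2 * (p : ℤ)) ∣ i - j) (k l : ℤ) :
    Nat.card {d // m.tail d = (m.bg o).b k ∧ m.tail (m.opp d) = (m.bg o).b l} =
      Nat.card {d // (¬ m.face.SameCycle o d ∧ ¬ m.face.SameCycle o (m.opp d)) ∧
        (m.tail d = (m.bg o).b k ∧ m.tail (m.opp d) = (m.bg o).b l)} +
      (if (m.bg o).b (k + 1) = (m.bg o).b l ∨ (m.bg o).b (l + 1) = (m.bg o).b k then 1 else 0) := by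
  rw [card_split (fun d => m.tail d = (m.bg o).b k ∧ m.tail (m.opp d) = (m.bg o).b l)
    (fun d => ¬ m.face.SameCycle o d ∧ ¬ m.face.SameCycle o (m.opp d))]
  congr 1
  have hb : ∀ i : ℤ, (m.bg o).b i = m.tail ((m.face ^ i) o) := fun i => rfl
  have ho : ∀ i : ℤ, m.face.SameCycle o ((m.face ^ i) o) := fun i => ⟨i, rfl⟩
  have hf : ∀ i : ℤ, m.tail (m.opp ((m.face ^ i) o)) = (m.bg o).b (i + 1) := by
    intro i
    rw [← tail_face, hb, zpow_succ_app]
  have hT : ∀ d, ((m.tail d = (m.bg o).b k ∧ m.tail (m.opp d) = (m.bg o).b l) ∧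
      ¬ (¬ m.face.SameCycle o d ∧ ¬ m.face.SameCycle o (m.opp d))) ↔
      (d = (m.face ^ k) o ∧ (m.bg o).b (k + 1) = (m.bg o).b l) ∨
      (d = m.opp ((m.face ^ l) o) ∧ (m.bg o).b (l + 1) = (m.bg o).b k) := by
    intro d
    constructor
    · rintro ⟨⟨h1, h2⟩, h3⟩
      by_cases h4 : m.face.SameCycle o d
      · left
        have e : d = (m.face ^ k) o := hs _ _ h4 (ho k) h1
        refine ⟨e, ?_⟩
        rw [← hf, ← e, h2]
      · have h5 : m.face.SameCycle o (m.opp d) := by
          by_contra h5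
          exact h3 ⟨h4, h5⟩
        right
        have e : m.opp d = (m.face ^ l) o := hs _ _ h5 (ho l) h2
        refine ⟨by rw [← e, m.opp_opp], ?_⟩
        rw [← hf, ← e, m.opp_opp, h1]
    · rintro (⟨rfl, h1⟩ | ⟨rfl, h1⟩)
      · refine ⟨⟨rfl, ?_⟩, fun h => h.1 (ho k)⟩
        rw [hf, h1]
      · rw [m.opp_opp]
        refine ⟨⟨?_, rfl⟩, fun h => h.2 (ho l)⟩
        rw [hf, h1]
  rw [Nat.card_congr (Equiv.subtypeEquivRight hT)]
  by_cases c1 : (m.bg o).b (k + 1) = (m.bg o).b l
  · by_cases c2 : (m.bg o).b (l + 1) = (m.bg o).b k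
    · exfalso
      rw [hmod] at c1 c2
      have h : (2 * (p : ℤ)) ∣ 2 := by
        have := dvd_add c1 c2
        have e : k + 1 - l + (l + 1 - k) = 2 := by ring
        rwa [e] at this
      have := Int.le_of_dvd (by norm_num) h
      omega
    · rw [if_pos (Or.inl c1)]
      have : ∀ d, ((d = (m.face ^ k) o ∧ (m.bg o).b (k + 1) = (m.bg o).b l) ∨
          (d = m.opp ((m.face ^ l) o) ∧ (m.bg o).b (l + 1) = (m.bg o).b k)) ↔
          d = (m.face ^ k) o := by
        intro d
        constructor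
        · rintro (⟨h, _⟩ | ⟨_, h⟩)
          · exact h
          · exact absurd h c2
        · intro h
          exact Or.inl ⟨h, c1⟩
      rw [Nat.card_congr (Equiv.subtypeEquivRight this)]
      exact Nat.card_unique
  · by_cases c2 : (m.bg o).b (l + 1) = (m.bg o).b k
    · rw [if_pos (Or.inr c2)]
      have : ∀ d, ((d = (m.face ^ k) o ∧ (m.bg o).b (k + 1) = (m.bg o).b l) ∨
          (d = m.opp ((m.face ^ l) o) ∧ (m.bg o).b (l + 1) = (m.bg o).b k)) ↔
          d = m.opp ((m.face ^ l) o) := by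
        intro d
        constructor
        · rintro (⟨_, h⟩ | ⟨h, _⟩)
          · exact absurd h c1
          · exact h
        · intro h
          exact Or.inr ⟨h, c2⟩
      rw [Nat.card_congr (Equiv.subtypeEquivRight this)]
      exact Nat.card_unique
    · rw [if_neg (by rintro (h | h); exacts [c1 h, c2 h])]
      have : IsEmpty {d // (d = (m.face ^ k) o ∧ (m.bg o).b (k + 1) = (m.bg o).b l) ∨
          (d = m.opp ((m.face ^ l) o) ∧ (m.bg o).b (l + 1) = (m.bg o).b k)} := by
        refine ⟨?_⟩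
        rintro ⟨d, (⟨_, h⟩ | ⟨_, h⟩)⟩
        · exact c1 h
        · exact c2 h
      exact Nat.card_of_isEmpty

lemma mult_symm {D : Type} (m : RMap D) (a b : m.Vert) : m.mult a b = m.mult b a := by
  unfold RMap.mult
  refine Nat.card_congr (Equiv.subtypeEquiv m.opp (fun d => ?_))
  rw [m.opp_opp, and_comm]

theorem main (h05 : ST_E05) (h07 : ST_E07) (h11 : ST_E11) (hF : ST_FILL) (K : ℝ) (hK : 1 ≤ K)
    (hDM : ∀ (D : Type) [Fintype D] (m : RMap D), m.Planar → (∀ d, m.fdeg d = 4) →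
      Nonempty (DiscModel K m.mult))
    (n p : ℕ) (hp : 2 ≤ p) (x : RMap (Fin (4 * n + 2 * p)) × Fin (4 * n + 2 * p)) (hx : x ∈ SQ n p)
    (y : RMap (Fin (4 * n + 2 * p)) × Fin (4 * n + 2 * p)) (hy : y ∈ SQ n p) :
    Nonempty (DiscModel K (gl x.1 x.2 y.1 y.2)) := by
  classical
  obtain ⟨_, hmodx, hreg⟩ := h05 n p hp x hx
  obtain ⟨_, hmody, _⟩ := h05 n p hp y hy
  have hR := hreg y hy
  obtain ⟨m1, o1⟩ := x
  obtain ⟨m2, o2⟩ := y
  obtain ⟨hq1, hs1⟩ := hx
  obtain ⟨hq2, hs2⟩ := hy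
  simp only at hmodx hmody hR hq1 hs1 hq2 hs2 ⊢
  clear hreg
  have hin1 := opp_inner m1 o1 p hp hq1.outer hs1
  have hin2 := opp_inner m2 o2 p hp hq2.outer hs2
  obtain ⟨D, _, m, j1, j2, P0, P1, P2, P3, P4, P5, P6, P7, P8, P9, P10, P11, P12, P13⟩ :=
    hF _ _ m1 m2 o1 o2 hq1.planar hq2.planar (by rw [hq1.outer, hq2.outer]) hs2 hin2
  obtain ⟨_, _, hsy, _, hle, hjunk, hrr, hbr, hzr, hzl, hbb⟩ := h07 _ _ _ _ hR
  -- every face has degree four
  have hf1 : ∀ d, ¬ m1.face.SameCycle o1 d → m.fdeg (j1 d) = 4 := by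
    intro d hd
    rw [← hq1.inner d hd]
    unfold RMap.fdeg
    refine card_cycle m1.face m.face j1 d ?_ ?_
    · intro a ha
      exact P5 a (fun h => hd (h.trans ha.symm))
    · intro a a' _ _ h
      exact P1 h
  have hf2 : ∀ d, ¬ m2.face.SameCycle o2 d → m.fdeg (j2 d) = 4 := by
    intro d hd
    rw [← hq2.inner d hd]
    unfold RMap.fdeg
    refine card_cycle m2.face m.face j2 d ?_ ?_
    · intro a ha
      exact P6 a (fun h => hd (h.trans ha.symm))
    · intro a a' ha ha' h
      exact P8 a a' (fun h => hd (h.trans ha.symm)) (fun h => hd (h.trans ha'.symm)) h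
  -- outer darts of the second map
  have hout2 : ∀ d, m2.face.SameCycle o2 d →
      ∃ i : ℤ, d = (m2.face ^ (-i)) o2 ∧ j2 d = j1 (m1.opp ((m1.face ^ i) o1)) := by
    rintro d ⟨k, rfl⟩
    refine ⟨-k, by rw [neg_neg], ?_⟩
    have := P4 (-k)
    rw [neg_neg] at this
    exact this
  have hface : ∀ z, m.fdeg z = 4 := by
    intro z
    have h2 : ∀ d, m.fdeg (j2 d) = 4 := by
      intro d
      by_cases hd : m2.face.SameCycle o2 d
      · obtain ⟨i, _, h⟩ := hout2 d hd
        rw [h]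
        exact hf1 _ (hin1 _ ⟨i, rfl⟩)
      · exact hf2 d hd
    rcases P7 z with ⟨d, rfl⟩ | ⟨d, rfl⟩
    · by_cases hd : m1.face.SameCycle o1 d
      · obtain ⟨i, rfl⟩ := hd
        have e : j1 ((m1.face ^ i) o1) = j2 (m2.opp ((m2.face ^ (-i)) o2)) := by
          rw [P3, P4 i, P2, m.opp_opp]
        rw [e]
        exact h2 _
      · exact hf1 d hd
    · exact h2 d
  have hM := hDM D m P0 hface
  -- the map on vertices
  let φ : m1.Vert ⊕ m2.Vert → m.Vert := fun z => match z with
    | Sum.inl u => Quotient.lift (fun d => m.tail (j1 d))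
        (fun a b hab => (P10 a b).mpr (Quotient.sound hab)) u
    | Sum.inr w => Quotient.lift (fun d => m.tail (j2 d))
        (fun a b hab => P11 a b (Quotient.sound hab)) w
  have φ1 : ∀ d, φ (Sum.inl (m1.tail d)) = m.tail (j1 d) := fun d => rfl
  have φ2 : ∀ d, φ (Sum.inr (m2.tail d)) = m.tail (j2 d) := fun d => rfl
  have rep1 : ∀ u : m1.Vert, ∃ d, m1.tail d = u := fun u => ⟨u.out, Quotient.out_eq u⟩
  have rep2 : ∀ u : m2.Vert, ∃ d, m2.tail d = u := fun u => ⟨u.out, Quotient.out_eq u⟩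
  have b1 : ∀ i : ℤ, (m1.bg o1).b i = m1.tail ((m1.face ^ i) o1) := fun i => rfl
  have b2 : ∀ i : ℤ, (m2.bg o2).b i = m2.tail ((m2.face ^ i) o2) := fun i => rfl
  have hgl : ∀ i : ℤ, φ (Sum.inr ((m2.bg o2).b (1 - i))) = φ (Sum.inl ((m1.bg o1).b i)) := by
    intro i
    rw [b1, b2, φ1, φ2]
    have e1 := P4 (i - 1)
    have e2 : -(i - 1) = 1 - i := by ring
    rw [e2] at e1
    rw [e1, P10, ← tail_face, ← zpow_succ_app]
    ring_nf
  have hφ1 : ∀ u d, m.tail (j1 d) = φ (Sum.inl u) ↔ m1.tail d = u := by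
    intro u d
    obtain ⟨a, rfl⟩ := rep1 u
    rw [φ1, P10]
  have hφ2 : ∀ u d, m.tail (j2 d) = φ (Sum.inl u) ↔
      ∃ i : ℤ, u = (m1.bg o1).b i ∧ m2.tail d = (m2.bg o2).b (1 - i) := by
    intro u d
    constructor
    · intro h
      have h1 : ∃ k : ℤ, m2.tail d = (m2.bg o2).b k := by
        by_contra hno
        push Not at hno
        obtain ⟨a, rfl⟩ := rep1 u
        exact P13 d a hno h
      obtain ⟨k, hk⟩ := h1
      refine ⟨1 - k, ?_, by rw [hk]; ring_nf⟩
      have h2 := hgl (1 - k)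
      have e : (1 : ℤ) - (1 - k) = k := by ring
      rw [e, ← hk, φ2, h] at h2
      obtain ⟨a, rfl⟩ := rep1 u
      rw [b1, φ1, φ1, P10] at h2
      rw [h2, b1]
    · rintro ⟨i, rfl, hd⟩
      rw [← hgl, ← hd, φ2]
  have hφ3 : ∀ w d, w ∉ Set.range (m2.bg o2).b → (m.tail (j2 d) = φ (Sum.inr w) ↔ m2.tail d = w) := by
    intro w d hw
    obtain ⟨a, rfl⟩ := rep2 w
    rw [φ2]
    constructor
    · intro h
      exact (P12 a d (fun i hi => hw ⟨i, hi.symm⟩) h.symm).symm
    · intro h
      exact P11 _ _ h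
  have hφ4 : ∀ w d, w ∉ Set.range (m2.bg o2).b → m.tail (j1 d) ≠ φ (Sum.inr w) := by
    intro w d hw h
    obtain ⟨a, rfl⟩ := rep2 w
    rw [φ2] at h
    exact P13 a d (fun i hi => hw ⟨i, hi.symm⟩) h.symm
  -- counting the darts of the glueing
  have hmult : ∀ a b : m.Vert, m.mult a b =
      Nat.card {d // m.tail (j1 d) = a ∧ m.tail (j1 (m1.opp d)) = b} +
      Nat.card {d // (¬ m2.face.SameCycle o2 d ∧ ¬ m2.face.SameCycle o2 (m2.opp d)) ∧
        (m.tail (j2 d) = a ∧ m.tail (j2 (m2.opp d)) = b)} := by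
    intro a b
    let S : Type := {d // ¬ m2.face.SameCycle o2 d ∧ ¬ m2.face.SameCycle o2 (m2.opp d)}
    let Ψ : Fin (4 * n + 2 * p) ⊕ S → D := Sum.elim j1 (fun s => j2 s.1)
    have hΨ : Function.Bijective Ψ := by
      constructor
      · have hno : ∀ (d : Fin (4 * n + 2 * p)) (s : S), j1 d ≠ j2 s.1 := by
          intro d s h
          obtain ⟨i, _, h2⟩ := P9 d s.1 s.2.1 h
          refine s.2.2 ?_
          rw [h2, m2.opp_opp]
          exact ⟨-i, rfl⟩
        rintro (d | s) (d' | s') h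
        · have : d = d' := P1 h
          rw [this]
        · exact absurd h (hno d s')
        · exact absurd h.symm (hno d' s)
        · have : s = s' := Subtype.ext (P8 _ _ s.2.1 s'.2.1 h)
          rw [this]
      · intro z
        rcases P7 z with ⟨d, rfl⟩ | ⟨d, rfl⟩
        · exact ⟨Sum.inl d, rfl⟩
        · by_cases h1 : m2.face.SameCycle o2 d
          · obtain ⟨i, _, h⟩ := hout2 d h1
            exact ⟨Sum.inl _, h.symm⟩
          · by_cases h2 : m2.face.SameCycle o2 (m2.opp d)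
            · obtain ⟨i, _, h⟩ := hout2 _ h2
              refine ⟨Sum.inl ((m1.face ^ i) o1), ?_⟩
              change j1 _ = _
              rw [P3, P2] at h
              exact (m.opp.injective h).symm
            · exact ⟨Sum.inr ⟨d, h1, h2⟩, rfl⟩
    have e1 : m.mult a b = Nat.card {s : Fin (4 * n + 2 * p) ⊕ S //
        m.tail (Ψ s) = a ∧ m.tail (m.opp (Ψ s)) = b} :=
      Nat.card_congr ((Equiv.ofBijective Ψ hΨ).subtypeEquiv (fun s => Iff.rfl)).symm
    rw [e1, Nat.card_congr (Equiv.subtypeSum), Nat.card_sum]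
    congr 1
    · refine Nat.card_congr (Equiv.subtypeEquivRight (fun d => ?_))
      change (m.tail (j1 d) = a ∧ m.tail (m.opp (j1 d)) = b) ↔ _
      rw [P2]
    · refine Nat.card_congr ((Equiv.subtypeSubtypeEquivSubtypeInter
        (fun d => ¬ m2.face.SameCycle o2 d ∧ ¬ m2.face.SameCycle o2 (m2.opp d))
        (fun d => m.tail (j2 d) = a ∧ m.tail (m.opp (j2 d)) = b)).trans
        (Equiv.subtypeEquivRight (fun d => ?_)))
      rw [P3]
  have hempty : ∀ {A : Type} (Q : A → Prop), (∀ a, ¬ Q a) → Nat.card {a // Q a} = 0 := by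
    intro A Q hQ
    have : IsEmpty {a // Q a} := ⟨fun a => hQ a.1 a.2⟩
    exact Nat.card_of_isEmpty
  have tf2 : ∀ d, m2.face.SameCycle o2 d → m2.tail d ∈ Set.range (m2.bg o2).b := by
    rintro d ⟨k, rfl⟩
    exact ⟨k, rfl⟩
  have tf3 : ∀ d, m2.face.SameCycle o2 d → m2.tail (m2.opp d) ∈ Set.range (m2.bg o2).b := by
    rintro d ⟨k, rfl⟩
    refine ⟨k + 1, ?_⟩
    rw [b2, ← tail_face, zpow_succ_app]
  -- the four cases
  have c11 : ∀ u v, gl m1 o1 m2 o2 (Sum.inl u) (Sum.inl v) =
      m.mult (φ (Sum.inl u)) (φ (Sum.inl v)) := by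
    intro u v
    rw [hmult]
    have e1 : Nat.card {d // m.tail (j1 d) = φ (Sum.inl u) ∧
        m.tail (j1 (m1.opp d)) = φ (Sum.inl v)} = (m1.bg o1).c u v := by
      refine Nat.card_congr (Equiv.subtypeEquivRight (fun d => ?_))
      rw [hφ1, hφ1]
    rw [e1]
    by_cases hu : u ∈ Set.range (m1.bg o1).b
    · by_cases hv : v ∈ Set.range (m1.bg o1).b
      · obtain ⟨i, rfl⟩ := hu
        obtain ⟨j, rfl⟩ := hv
        refine (hbb i j).trans ?_
        congr 1
        have hq : ∀ (i : ℤ) d, m.tail (j2 d) = φ (Sum.inl ((m1.bg o1).b i)) ↔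
            m2.tail d = (m2.bg o2).b (1 - i) := by
          intro i d
          rw [hφ2]
          constructor
          · rintro ⟨i', h1, h2⟩
            rw [h2, ← (hR.glue i i').mp h1]
          · intro h
            exact ⟨i, rfl, h⟩
        have e2 : (m2.bg o2).c ((m2.bg o2).b (1 - i)) ((m2.bg o2).b (1 - j)) =
            Nat.card {d // (¬ m2.face.SameCycle o2 d ∧ ¬ m2.face.SameCycle o2 (m2.opp d)) ∧
            (m.tail (j2 d) = φ (Sum.inl ((m1.bg o1).b i)) ∧
              m.tail (j2 (m2.opp d)) = φ (Sum.inl ((m1.bg o1).b j)))} +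
            (if (m1.bg o1).b (i + 1) = (m1.bg o1).b j ∨ (m1.bg o1).b (j + 1) = (m1.bg o1).b i
              then 1 else 0) := by
          have e3 := bd_count m2 o2 p hp hs2 hmody (1 - i) (1 - j)
          change Nat.card {d // m2.tail d = (m2.bg o2).b (1 - i) ∧
            m2.tail (m2.opp d) = (m2.bg o2).b (1 - j)} = _
          rw [e3]
          congr 1
          · refine Nat.card_congr (Equiv.subtypeEquivRight (fun d => ?_))
            rw [hq, hq]
          · have q1 : ((m2.bg o2).b (1 - i + 1) = (m2.bg o2).b (1 - j)) ↔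
                (m1.bg o1).b (j + 1) = (m1.bg o1).b i := by
              rw [hmodx, hmody]
              have : (1 : ℤ) - i + 1 - (1 - j) = j + 1 - i := by ring
              rw [this]
            have q2 : ((m2.bg o2).b (1 - j + 1) = (m2.bg o2).b (1 - i)) ↔
                (m1.bg o1).b (i + 1) = (m1.bg o1).b j := by
              rw [hmodx, hmody]
              have : (1 : ℤ) - j + 1 - (1 - i) = i + 1 - j := by ring
              rw [this]
            simp only [q1, q2]
            simp only [or_comm]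
        rw [e2]
        by_cases hh : (m1.bg o1).b (i + 1) = (m1.bg o1).b j ∨ (m1.bg o1).b (j + 1) = (m1.bg o1).b i
        · simp only [if_pos hh]
          exact Nat.add_sub_cancel _ _
        · simp only [if_neg hh]
          rfl
      · have e2 : gl m1 o1 m2 o2 (Sum.inl u) (Sum.inl v) = (m1.bg o1).c u v := by
          change glueC _ _ _ _ = _
          rw [hsy, hzl v u hv, hR.symm1]
        rw [e2, hempty, add_zero]
        rintro d ⟨_, _, h⟩
        obtain ⟨i, h1, _⟩ := (hφ2 _ _).mp h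
        exact hv ⟨i, h1.symm⟩
    · have e2 : gl m1 o1 m2 o2 (Sum.inl u) (Sum.inl v) = (m1.bg o1).c u v := hzl u v hu
      rw [e2, hempty, add_zero]
      rintro d ⟨_, h, _⟩
      obtain ⟨i, h1, _⟩ := (hφ2 _ _).mp h
      exact hu ⟨i, h1.symm⟩
  have c12 : ∀ u w, w ∉ Set.range (m2.bg o2).b → gl m1 o1 m2 o2 (Sum.inl u) (Sum.inr w) =
      m.mult (φ (Sum.inl u)) (φ (Sum.inr w)) := by
    intro u w hw
    rw [hmult, hempty _ (fun d h => hφ4 w _ hw h.2), zero_add]
    by_cases hu : u ∈ Set.range (m1.bg o1).b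
    · obtain ⟨i, rfl⟩ := hu
      have e1 : gl m1 o1 m2 o2 (Sum.inl ((m1.bg o1).b i)) (Sum.inr w) =
        (m2.bg o2).c ((m2.bg o2).b (1 - i)) w := hbr i w hw
      rw [e1]
      refine Nat.card_congr (Equiv.subtypeEquivRight (fun d => ?_))
      rw [hφ3 _ _ hw, hφ2]
      constructor
      · rintro ⟨h1, h2⟩
        refine ⟨⟨fun h => hw ?_, fun h => hw ?_⟩, ⟨i, rfl, h1⟩, h2⟩
        · rw [← h2]
          exact tf3 d h
        · rw [← h2]
          exact tf2 _ h
      · rintro ⟨_, ⟨i', h1, h2⟩, h3⟩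
        refine ⟨?_, h3⟩
        rw [h2, ← (hR.glue i i').mp h1]
    · have e1 : gl m1 o1 m2 o2 (Sum.inl u) (Sum.inr w) = 0 := hzr u w hu
      rw [e1, hempty]
      rintro d ⟨_, h, _⟩
      obtain ⟨i, h1, _⟩ := (hφ2 _ _).mp h
      exact hu ⟨i, h1.symm⟩
  have c22 : ∀ w w', w ∉ Set.range (m2.bg o2).b → w' ∉ Set.range (m2.bg o2).b →
      gl m1 o1 m2 o2 (Sum.inr w) (Sum.inr w') = m.mult (φ (Sum.inr w)) (φ (Sum.inr w')) := by
    intro w w' hw hw'
    rw [hmult, hempty _ (fun d h => hφ4 w' _ hw' h.2), zero_add]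
    have e1 : gl m1 o1 m2 o2 (Sum.inr w) (Sum.inr w') = (m2.bg o2).c w w' := hrr w w' hw hw'
    rw [e1]
    refine Nat.card_congr (Equiv.subtypeEquivRight (fun d => ?_))
    rw [hφ3 _ _ hw, hφ3 _ _ hw']
    constructor
    · rintro ⟨h1, h2⟩
      refine ⟨⟨fun h => hw ?_, fun h => hw' ?_⟩, h1, h2⟩
      · rw [← h1]
        exact tf2 d h
      · rw [← h2]
        exact tf2 _ h
    · rintro ⟨_, h⟩
      exact h
  -- real vertices
  let Rl : m1.Vert ⊕ m2.Vert → Prop := fun z => match z with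
    | Sum.inl _ => True
    | Sum.inr w => w ∉ Set.range (m2.bg o2).b
  have hsurj : ∀ a : m.Vert, ∃ z, Rl z ∧ φ z = a := by
    intro a
    obtain ⟨d, rfl⟩ : ∃ d, m.tail d = a := ⟨a.out, Quotient.out_eq a⟩
    rcases P7 d with ⟨d, rfl⟩ | ⟨d, rfl⟩
    · exact ⟨Sum.inl (m1.tail d), trivial, rfl⟩
    · by_cases h : m2.tail d ∈ Set.range (m2.bg o2).b
      · obtain ⟨k, hk⟩ := h
        refine ⟨Sum.inl ((m1.bg o1).b (1 - k)), trivial, ?_⟩
        rw [← hgl]
        have e : (1 : ℤ) - (1 - k) = k := by ring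
        rw [e, hk, φ2]
      · exact ⟨Sum.inr (m2.tail d), h, rfl⟩
  have hinj : ∀ z z', Rl z → Rl z' → φ z = φ z' → z = z' := by
    rintro (u | w) (v | w') hz hz' h
    · obtain ⟨a, rfl⟩ := rep1 u
      rw [φ1, hφ1] at h
      rw [h]
    · exfalso
      obtain ⟨a, rfl⟩ := rep1 u
      rw [φ1] at h
      exact hφ4 w' a hz' h
    · exfalso
      obtain ⟨a, rfl⟩ := rep1 v
      rw [φ1] at h
      exact hφ4 w a hz h.symm
    · obtain ⟨a, rfl⟩ := rep2 w
      rw [φ2, hφ3 _ _ hz'] at h
      rw [h]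
  choose f hf1' hf2' using hsurj
  have hrange : ∀ z, z ∈ Set.range f ↔ Rl z := by
    intro z
    constructor
    · rintro ⟨a, rfl⟩
      exact hf1' a
    · intro hz
      exact ⟨φ z, hinj _ _ (hf1' _) hz (hf2' _)⟩
  have hcount : ∀ z z', Rl z → Rl z' → gl m1 o1 m2 o2 z z' = m.mult (φ z) (φ z') := by
    rintro (u | w) (v | w') hz hz'
    · exact c11 u v
    · exact c12 u w' hz'
    · rw [mult_symm, ← c12 v w hz]
      exact hsy _ _
    · exact c22 w w' hz hz'
  refine dm_junk h11 hK m.mult (gl m1 o1 m2 o2) f ?_ ?_ ?_ hM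
  · intro a b hab
    rw [← hf2' a, ← hf2' b, hab]
  · intro a b
    rw [hcount _ _ (hf1' a) (hf1' b), hf2', hf2']
  · intro z z' hzz
    have hz0 : ∀ z z', ¬ Rl z → gl m1 o1 m2 o2 z z' = 0 := by
      rintro (u | w) z' hz
      · exact absurd trivial hz
      · have hw : w ∈ Set.range (m2.bg o2).b := by
          by_contra h
          exact hz h
        exact hjunk w hw z'
    rcases hzz with h | h
    · exact hz0 z z' (fun h' => h ((hrange z).mpr h'))
    · have e : gl m1 o1 m2 o2 z z' = gl m1 o1 m2 o2 z' z := hsy _ _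
      rw [e]
      exact hz0 z' z (fun h' => h ((hrange z').mpr h'))

end H70E

theorem st_E10 (h05 : ST_E05) (h07 : ST_E07) (h11 : ST_E11) (hF : ST_FILL) (hD : ST_DM) :
    ST_E10 := by
  obtain ⟨K, hK, hDM⟩ := hD
  exact ⟨K, hK, fun n p _ hp x hx y hy => H70E.main h05 h07 h11 hF K hK hDM n p hp x hx y hy⟩

end QR
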